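import Mathlib
import Pool.Agent.Q43.GT.Shp
import Pool.Agent.Q43.RP.Tt

/-!
# The generalized Tate conjecture for almost all ordinary abelian varieties over finite fields, in all
# levels up to the logarithm of the dimension and all degrees up to almost the dimension

Let `K i` be finitely many CM fields of degrees at least `2 g` and of total degree `2 N`; nothing is
assumed about their Galois groups, and they may be isomorphic. Let `p` be a prime number. A `p`-adic
type of `K i` (`IsPadicType`) is a choice of one element out of each complex conjugate pair of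
embeddings of `K i` in the algebraic closure of `ℚ_p`. An ordinary Weil number `π i` in `K i` for the
field with `q = p ^ a` elements has a type `Φ i`, the embeddings at which it is a unit (`IsOrdinary`); by
Honda and Tate these numbers are, up to conjugation, those of the ordinary abelian varieties `A i` over
finite fields (simple if `π i` generates `K i`); if `p` splits completely in the `K i`, all types occur.

`DivisorialIn π q n ν` says: in the space of the multilinear forms in `n` variables in Frobenius modules
`V i` with eigenvalues conjugate to the `π i` (with any multiplicities; the Tate modules of the abelian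
varieties isogenous to powers of the `A i`, so that these forms are the elements of the tensor products
of `n` first cohomology groups), the sum of the eigenspaces of the Frobenius whose eigenvalues are
divisible by `q ^ ν` (`galoisConiveau`; this is the Galois coniveau `N_ℓ ^ ν`) is contained in the span
of the products of `ν` Tate classes of degree two and of classes of degree one (`IsDivisorMultiple`). By Tate's theorem Tate classes of degree two are classes of divisors, and the
products are supported in codimension `ν`: this is the generalized Tate conjecture in degree `n` and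
coniveau `ν` for all these abelian varieties. `GTCUpTo p Φ k L` says that this holds in all degrees
`n ≤ k` and all levels `n - 2 ν ≤ L`, for all ordinary Weil numbers of type `Φ`.

1. If `10 ^ 13 k (log (6 N)) ^ 4 ≤ g`, then at most
   `2 ^ N ((2 N + 1) ^ (2 L ^ 2 + 1) (1 - 2 ^ (- (L + 2))) ^ (2 g / ((L + 2) (2 L ^ 2 + 1))) +
   exp (- g / (10 ^ 13 k log (6 N))))` of the `2 ^ N` families of `p`-adic types violate
   `GTCUpTo p Φ k L`.
2. So for `0 < ε < 1` and large `g`, every CM field of degree `2 g` has at most `ε 2 ^ g` `p`-adic types,
   for every `p`, that violate it with `k = ⌊g / (log g) ^ 5⌋` and `L = ⌊(1 - ε) log₂ g⌋`.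
3. The bound for the level is sharp up to the factor `1 - ε`: if `K` is Galois over `ℚ`, then for EVERY
   ordinary Weil number which generates `K` the conclusion is false for `ν = 1` in some degree at most
   `⌊log₂ g⌋ + 2`.
4. The bound for the degree is sharp up to the power of the logarithm: if `K` is Galois over `ℚ` with
   an elementary abelian Galois group, then for at least `2 ^ g (1 / 2 - 1 / √(8 g)) - 2 g 2 ^ (g / 2)`
   of its `p`-adic types `Φ` and all ordinary Weil numbers of type `Φ` generating `K` the conclusion is
   false in degree `g` and coniveau `g / 2`: there are exotic Tate classes.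

The starting result `DivisorialConiveau` of this problem says that the Galois coniveau is divisorial in
all degrees and levels if and only if all `2 ^ N` types are conjugate in a strong sense
(`AllTypesOccur`), which is impossible for fields of small Galois groups. Here nothing is assumed about
the Galois groups.

The proof: an eigenvalue divisible by `q ^ ν` is a word in the embeddings all of whose conjugates have
at least `ν` letters inside and `ν` letters outside of the type; one has to find `ν` pairs of conjugate
letters. For the short words this is a union bound, for the words of length up to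
`g / (log g) ^ 5` the restricted isometry property of random half systems
(`Pool/Agent/Q43/RP`, decoupling and chaining for chaos processes). The bound 3 is a pigeonhole
argument, the bound 4 is the theorem on vanishing character sums of random half systems.
-/

set_option autoImplicit false

namespace Pool.Agent.Results.MP_8abef2_ag.AlmostAllOrdinaryTypes

open NumberField Module Pool.Agent.Q43.GT Pool.Agent.W548.Tt

/-- **The generalized Tate conjecture for almost all ordinary types**, and its sharpness. -/
theorem result :
    (∀ (p : ℕ) [Fact p.Prime] {I : Type} [Fintype I] [Nonempty I] (K : I → Type)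
      [∀ i, Field (K i)] [∀ i, NumberField (K i)] [∀ i, IsCMField (K i)] (g N : ℕ),
      (∀ i, 2 * g ≤ finrank ℚ (K i)) → ∑ i, finrank ℚ (K i) = 2 * N →
      {Φ : ∀ i, Set (K i →+* PadicAlgCl p) | ∀ i, IsPadicType p (Φ i)}.ncard = 2 ^ N ∧
      ∀ k L : ℕ, 0 < k → 10 ^ 13 * (k * Real.log (6 * N) ^ 4) ≤ g →
        (({Φ : ∀ i, Set (K i →+* PadicAlgCl p) | (∀ i, IsPadicType p (Φ i)) ∧
          ¬ GTCUpTo p Φ k L}.ncard : ℕ) : ℝ) ≤
          2 ^ N * ((2 * N + 1) ^ (2 * L ^ 2 + 1) *
            (1 - (1 / 2) ^ (L + 2)) ^ (2 * (g : ℝ) / ((L + 2) * (2 * L ^ 2 + 1))) +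
            Real.exp (-(g / (10 ^ 13 * (k * Real.log (6 * N))))))) ∧
    (∀ ε : ℝ, 0 < ε → ε < 1 → ∃ g₀ : ℕ, ∀ g ≥ g₀, ∀ (p : ℕ) [Fact p.Prime] (K : Type) [Field K]
      [NumberField K] [IsCMField K], finrank ℚ K = 2 * g →
      (({Φ : Set (K →+* PadicAlgCl p) | IsPadicType p Φ ∧ ¬ GTCUpTo p (fun _ : Unit => Φ)
        ⌊g / Real.log g ^ 5⌋₊ ⌊(1 - ε) * Real.logb 2 g⌋₊}.ncard : ℕ) : ℝ) ≤ ε * 2 ^ g) ∧
    (∀ (p : ℕ) [Fact p.Prime] (K : Type) [Field K] [NumberField K] [IsCMField K] [IsGalois ℚ K]
      (g : ℕ), finrank ℚ K = 2 * g → 3 ≤ g → ∀ Φ : Set (K →+* PadicAlgCl p), IsPadicType p Φ →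
      ∀ (a : ℕ) (π : K), IsOrdinary p (fun _ : Unit => Φ) a (fun _ => π) →
        Algebra.adjoin ℚ {π} = ⊤ →
        ∃ n ≤ Nat.log 2 g + 2, ¬ DivisorialIn (fun _ : Unit => π) (p ^ a) n 1) ∧
    ∀ (p : ℕ) [Fact p.Prime] (K : Type) [Field K] [NumberField K] [IsCMField K] [IsGalois ℚ K]
      (g : ℕ), finrank ℚ K = 2 * g → (∀ σ : K ≃ₐ[ℚ] K, σ * σ = 1) → 2 ≤ g →
      (2 : ℝ) ^ g * (1 / 2 - 1 / Real.sqrt (8 * g)) ≤
        (({Φ : Set (K →+* PadicAlgCl p) | IsPadicType p Φ ∧
          ∀ (a : ℕ) (π : K), IsOrdinary p (fun _ : Unit => Φ) a (fun _ => π) →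
            Algebra.adjoin ℚ {π} = ⊤ →
            ¬ DivisorialIn (fun _ : Unit => π) (p ^ a) g (g / 2)}.ncard : ℕ) : ℝ) +
          2 * g * 2 ^ (g / 2) :=
  ⟨fun p _ _ _ _ K _ _ _ g N hg hN => ⟨Pool.Agent.Q43.RP.ncard_padic p K N hN,
    fun k L hk h => ncard_gtc p K g N hg hN k L hk h⟩,
    fun ε h0 h1 => ncard_gtc_one ε h0 h1,
    fun _ _ _ _ _ _ _ _ hK hg _ hΦ _ _ hπ hgen => sharp hK hg hΦ hπ hgen,
    fun _ _ _ _ _ _ _ _ hK hsq hg => sharp_degree hK hsq hg⟩

end Pool.Agent.Results.MP_8abef2_ag.AlmostAllOrdinaryTypes
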