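import Pool.Agent.Q59.GH.Sys

/-!
# The generalized Tate conjecture for Fermat varieties of fixed dimension and large degree

Let `N ≥ 2` and let `X_m : x_0 ^ m + ... + x_(N-1) ^ m = 0` be the Fermat variety of degree `m` and
dimension `n = N - 2` over a number field `K` (or over a finite field whose characteristic is `1`
modulo `m`). Its primitive `l`-adic cohomology of degree `n` is, over an
extension of the coefficients, a direct sum
of lines `V(s)` indexed by the tuples `s` of `N` nonzero residues modulo `m` with sum zero. Put
`⟨s⟩ = (sum of the representatives of the entries in 0, ..., m - 1) / m`, an integer between `1` and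
`N - 1`. The Frobenius of a prime `v` of `K(μ_m)` prime to `m` acts on `V(s)` by a Jacobi sum (Weil) and
by Stickelberger's theorem the valuations of the conjugates of this Jacobi sum, for `v` of degree one, are the
numbers `⟨t s⟩ - 1` for the units `t` modulo `m`. So the twist `V(s)(c)` is effective of weight `n - 2 c` if and only if
`c + 1 ≤ ⟨t s⟩ ≤ N - 1 - c` for all units `t`, which is `HasConiveau c s`: the Galois coniveau
`N_l^c H^n` is the sum of the lines with `HasConiveau c s`. The generalized Tate conjecture in
this degree and coniveau says that every such line is contained in `N ^ c`.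

For every `m` let `G c` be the family of the characters with `V(s) ⊆ N ^ c`. It has the
three properties in the structure `Supports`: `N ^ c` is contained in the Galois coniveau (Gysin maps),
`N ^ 0` is everything, and the inductive structure of Shioda and Katsura, which exists over all
fields, sends `N ^ c ⊗ N ^ d` to `N ^ (c + d + 1)` for the join of two characters.

The theorem. Fix `N` and `c` with `2 * (c + 1) ≤ N`. The dimension of the Galois coniveau
`N_l^c` is, for ALL degrees `m ≥ 1`,

`S(N, c + 1) * m ^ (n + 1 - c) + Q (m mod P) (m)`,   degree of `Q j` at most `n - c`,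

where `S(N, r)` is the number of the partitions of a set with `N` elements in `r` blocks with at least
two elements each, and the part of it which is not contained in `N ^ c` has at most the dimension
`R (m mod P) (m)` with polynomials `R j` of degree at most `n - c`. In particular the generalized Tate
conjecture holds for 100 percent of the Galois coniveau when the degree tends to infinity:
for every `ε > 0` and all large `m` the part of `N ^ c` has at least the dimension `(1 - ε)` times the
predicted one.

Behind this there is a structure theorem (`Pool.Agent.Q59.GH.exists_finite`): for every closed subset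
`F` of a compact torus the torsion points all of whose Galois conjugates belong to `F` form a finite
union of torsion cosets.
-/

namespace Pool.Agent.Results.MP_8abef2_ag.FermatConiveau

open Finset

/-- The characters of coniveau at least `c`, as multisets of residues modulo `m`: no entry is zero, the
sum is zero and all conjugates satisfy `c + 1 ≤ ⟨t s⟩` and `⟨t s⟩ + (c + 1) ≤ N` (`N` the number of the
entries), where `m * ⟨s⟩` is the sum of the representatives between `0` and `m - 1`. -/
def HasConiveau {m : ℕ} (c : ℕ) (s : Multiset (ZMod m)) : Prop :=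
  (0 : ZMod m) ∉ s ∧ s.sum = 0 ∧ ∀ t : (ZMod m)ˣ,
    (c + 1) * m ≤ (s.map fun a => ((t : ZMod m) * a).val).sum ∧
    (s.map fun a => ((t : ZMod m) * a).val).sum + (c + 1) * m ≤ Multiset.card s * m

/-- The properties of the families `G c` of the characters `s` of degree `m` with `V(s) ⊆ N ^ c`. -/
structure Supports (m : ℕ) (G : ℕ → Multiset (ZMod m) → Prop) : Prop where
  /-- the geometric coniveau is contained in the Galois coniveau (Gysin maps) -/
  level : ∀ c s, G c s → HasConiveau c s
  /-- `N ^ 0` contains all lines -/
  zero : ∀ s : Multiset (ZMod m), s ≠ 0 → (0 : ZMod m) ∉ s → s.sum = 0 → G 0 s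
  /-- the inductive structure of Fermat varieties (Shioda, Katsura) -/
  join : ∀ c d s t, G c s → G d t → G (c + d + 1) (s + t)

/-- The number of the characters of degree `m` with `N` entries and coniveau at least `c`, as tuples:
the dimension of the Galois coniveau `N_l^c` of the primitive
cohomology of the Fermat variety of degree `m` and dimension `N - 2`. -/
noncomputable def galoisLines (N c m : ℕ) : ℕ :=
  Nat.card {s : Fin N → ZMod m // HasConiveau c ((univ : Finset (Fin N)).val.map s)}

/-- The number of the characters in the family `G c`: the dimension of the part of `N ^ c`. -/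
noncomputable def supportedLines {m : ℕ} (G : ℕ → Multiset (ZMod m) → Prop) (N c : ℕ) : ℕ :=
  Nat.card {s : Fin N → ZMod m // G c ((univ : Finset (Fin N)).val.map s)}

/-- The number of the set partitions of `N` elements in `r` blocks with at least two elements. -/
def blockPartitions (N r : ℕ) : ℕ :=
  ((univ : Finset (Finpartition (univ : Finset (Fin N)))).filter fun P =>
    P.parts.card = r ∧ ∀ β ∈ P.parts, 2 ≤ β.card).card

/-- **The generalized Tate conjecture for Fermat varieties of fixed dimension.** -/
theorem result (N c : ℕ) (hN : 2 * (c + 1) ≤ N) :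
    0 < blockPartitions N (c + 1) ∧
    (∃ P : ℕ, 0 < P ∧ ∃ Q R : ℕ → Polynomial ℚ,
      (∀ j, (Q j).natDegree ≤ N - 2 - c ∧ (R j).natDegree ≤ N - 2 - c) ∧
      ∀ m, 0 < m →
        (galoisLines N c m : ℚ) =
          (blockPartitions N (c + 1) : ℚ) * (m : ℚ) ^ (N - 1 - c) + (Q (m % P)).eval (m : ℚ) ∧
        ∀ G : ℕ → Multiset (ZMod m) → Prop, Supports m G →
          (supportedLines G N c : ℚ) ≤ galoisLines N c m ∧
          (galoisLines N c m : ℚ) ≤ supportedLines G N c + (R (m % P)).eval (m : ℚ)) ∧
    ∀ ε : ℚ, 0 < ε → ∃ M : ℕ, ∀ m, M ≤ m → 0 < m →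
      ∀ G : ℕ → Multiset (ZMod m) → Prop, Supports m G →
        (1 - ε) * (galoisLines N c m : ℚ) ≤ supportedLines G N c := by
  have hl : ∀ m, galoisLines N c m = Pool.Agent.Q59.GH.hcon (Fin N) c m := by
    intro m
    unfold galoisLines Pool.Agent.Q59.GH.hcon
    exact Nat.card_congr (Equiv.subtypeEquivRight fun s => Pool.Agent.Q59.GH.hasCon_iff s)
  have hS : ∀ {m : ℕ} {G : ℕ → Multiset (ZMod m) → Prop}, Supports m G →
      Pool.Agent.Q59.GH.Supp m G := fun h => ⟨h.level, h.zero, h.join⟩
  obtain ⟨⟨P, hP, Q, R, h1, h2⟩, h3⟩ := Pool.Agent.Q59.GH.main_supp hN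
  refine ⟨Pool.Agent.Q59.GH.BP_pos (Nat.succ_pos c) hN, ⟨P, hP, Q, R, h1, fun m hm => ?_⟩,
    fun ε hε => ?_⟩
  · obtain ⟨h4, h5⟩ := h2 m hm
    rw [hl m]
    refine ⟨h4, fun G hG => ?_⟩
    obtain ⟨h6, h7⟩ := Pool.Agent.Q59.GH.gcnt_bounds (ι := Fin N) hm (hS hG) c
    refine ⟨by exact_mod_cast h6, ?_⟩
    rw [← h5]
    exact_mod_cast h7
  · obtain ⟨M, hM⟩ := h3 ε hε
    refine ⟨M, fun m hm hm0 G hG => ?_⟩
    obtain ⟨-, h7⟩ := Pool.Agent.Q59.GH.gcnt_bounds (ι := Fin N) hm0 (hS hG) c
    have h8 := hM m hm hm0
    have h9 : (Pool.Agent.Q59.GH.hcon (Fin N) c m : ℚ) ≤ supportedLines G N c +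
        Pool.Agent.Q59.GH.econ (Fin N) c m := by exact_mod_cast h7
    rw [hl m]
    linarith

end Pool.Agent.Results.MP_8abef2_ag.FermatConiveau
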