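import Mathlib

/-!
# The generalized Tate conjecture for the products of a given variety with random curves

Let `Z` be a smooth projective variety over the field `K` with `q` elements, and let `A_i`, `i : I`, be
finitely many smooth projective curves, or abelian varieties, over `K`; let `g i` be the genus or the
dimension of `A_i`. We compare the generalized Tate conjecture (Q1, over finite fields) for `Z` with the
same conjecture for the products `X = Z × ∏ A_i ^ (n_i)`.

**Eigenvalues.** The letters `((i, a), s)`, `a < g i`, `s` a boolean, index a basis of `H ^ 1 (A_i)` of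
(generalized) eigenvectors of the Frobenius, with the eigenvalues `π`; `π` of `((i, a), true)` times `π` of
`((i, a), false)` is `q`. Let `Λ` be the set of the eigenvalues on the cohomology of `Z`. A `Place` is a
place over `p` of the field of all eigenvalues, with the valuation `slope v`, normalized by
`slope v q = 1`. A product `β` of eigenvalues is `q ^ ν` times an algebraic integer if and only if its
slopes are at least `ν` (`Divisible`), as it is a unit at the other places. We suppose

* `ordinary`: the slopes of the `π x` are `0` and `1`;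
* `types`: for every place `v` and every choice of one letter `x_a` in each pair there is a place
  `v'` where all these letters have the slope `0`, while the eigenvalues of `Z` have the same slopes as at
  `v` (all CM types occur, also relatively to the field of the eigenvalues of `Z`).

For instance let `𝒜_i → B` be families of curves or principally polarized abelian varieties whose
geometric monodromy is the full symplectic group (the universal curve, hyperelliptic curves, trigonal
curves, complete intersections in a fixed ambient space, the Prym parts of double covers, ...), pairwise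
independent, with ordinary generic member, and `Z` a FIXED variety over the finite field. Then
`ordinary` and `types` hold for the members at all closed points of `B` outside a set of density zero:
the Galois group of the Frobenius polynomials contains the product of the Weyl groups, also over the
field of the eigenvalues of `Z` (Chavdarov, Kowalski, by the theorem of Chebotarev modulo primes which
split in this field).

**Cohomology.** The cohomology `HX i` of `X` in the degree `i` is the direct sum of spaces
`H ^ (i - |w| - 2 t) (Z) ⊗ e_w`, where `w` is a word (the tensor product of letters) and `t` the number of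
factors where the class of a point is used (for curves); these parts are indexed by `J i`. The
tensor product of a letter `x` and of the dual letter `x̄` (in `H ^ 1 ⊗ H ^ 1`, or in `H ^ 2` of an abelian
variety) is a Tate class; it is a combination of classes of divisors, by the theorem of Tate for abelian
varieties over finite fields. So if `r = pairs w` is the number of disjoint pairs in the word `w`, the product of
a class of coniveau `μ` on `Z` with the class `e_w` has coniveau at least `μ + r + t`. This gives the
structure `Cohomology`.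

**The theorem.** The generalized Tate conjecture for `Z` (in all degrees `i` and for all `ν`) implies the
generalized Tate conjecture for `X`. (`GTC`: over a finite field the space `N ^ ν_ℓ` is the sum of the
generalized eigenspaces for the eigenvalues which are divisible by `q ^ ν`.) So the conjecture for `Z`,
for instance if `Z` is a surface which satisfies the Tate conjecture, or a Fermat variety of one of the
known degrees, implies it for the products of `Z` with all powers of almost all curves.
-/

namespace Pool.Agent.Results.MP_8abef2_ag.ProductsWithRandomCurves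

/-- the letters: an index of a pair, and a boolean for the element of the pair -/
abbrev Letter {I : Type} (g : I → ℕ) : Type := (Σ i : I, Fin (g i)) × Bool

/-- The number of disjoint pairs (a letter and its dual) in the word `w`: the sum over the indices of
pairs of the minimum of the numbers of the occurrences of the two letters. -/
def pairs {I : Type} [Fintype I] [DecidableEq I] {g : I → ℕ} {s : ℕ} (w : Fin s → Letter g) : ℕ :=
  ∑ a : Σ i : I, Fin (g i), min (Finset.univ.filter fun k => w k = (a, true)).card
    (Finset.univ.filter fun k => w k = (a, false)).card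

/-- The eigenvalues `π` of the letters and `Λ` of the cohomology of `Z`, the places and slopes, the
ordinarity and the types. -/
structure Eigenvalues {I : Type} (g : I → ℕ) where
  q : ℂ
  q_ne : q ≠ 0
  π : Letter g → ℂ
  π_mul : ∀ a, π (a, true) * π (a, false) = q
  Λ : Set ℂ
  Place : Type
  slope : Place → ℂ → ℚ
  slope_mul : ∀ v x y, x ≠ 0 → y ≠ 0 → slope v (x * y) = slope v x + slope v y
  slope_q : ∀ v, slope v q = 1
  ordinary : ∀ v x, slope v (π x) = 0 ∨ slope v (π x) = 1
  types : ∀ (v : Place) (ε : (Σ i : I, Fin (g i)) → Bool),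
    ∃ v', (∀ α ∈ Λ, slope v' α = slope v α) ∧ ∀ a, slope v' (π (a, ε a)) = 0

/-- the number `β` is divisible by `q ^ ν` -/
def Eigenvalues.Divisible {I : Type} {g : I → ℕ} (Φ : Eigenvalues g) (β : ℂ) (ν : ℕ) : Prop :=
  ∀ v, (ν : ℚ) ≤ Φ.slope v β

/-- The generalized Tate conjecture for the cohomology spaces `H i` with the Frobenius operators `F` and
the coniveau filtrations `N`: the generalized eigenspaces for the eigenvalues divisible by `q ^ ν` have the
coniveau `ν`. -/
def GTC {I : Type} {g : I → ℕ} (Φ : Eigenvalues g) {H : ℕ → Type} [∀ i, AddCommGroup (H i)]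
    [∀ i, Module ℂ (H i)] (F : ∀ i, H i →ₗ[ℂ] H i) (Nv : ∀ i, ℕ → Submodule ℂ (H i)) : Prop :=
  ∀ (i ν : ℕ) (β : ℂ), Φ.Divisible β ν → Module.End.maxGenEigenspace (F i) β ≤ Nv i ν

/-- The cohomology of `Z` and of `X`, with the Frobenius operators and the coniveau filtrations; the
eigenvalues on the cohomology of `Z` belong to `Λ`, are different from `0` and have slopes at least `0`; the
maps `t τ : HZ (deg τ) → HX i`, `z ↦ z ⊗ e_w ⊗ (points τ) points`, are compatible with the Frobenius, `HX i` is
the direct sum of their images, and `t τ` raises the coniveau by `pairs (word τ) + points τ`. -/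
structure Cohomology {I : Type} [Fintype I] [DecidableEq I] {g : I → ℕ} (Φ : Eigenvalues g) where
  HZ : ℕ → Type
  [addZ : ∀ i, AddCommGroup (HZ i)]
  [modZ : ∀ i, Module ℂ (HZ i)]
  FZ : ∀ i, HZ i →ₗ[ℂ] HZ i
  NZ : ∀ i, ℕ → Submodule ℂ (HZ i)
  HX : ℕ → Type
  [addX : ∀ i, AddCommGroup (HX i)]
  [modX : ∀ i, Module ℂ (HX i)]
  FX : ∀ i, HX i →ₗ[ℂ] HX i
  NX : ∀ i, ℕ → Submodule ℂ (HX i)
  eigenvalues : ∀ i α, α ∉ Φ.Λ → Module.End.maxGenEigenspace (FZ i) α = ⊥
  eigenvalues_ne : ∀ α ∈ Φ.Λ, α ≠ 0
  integral : ∀ α ∈ Φ.Λ, ∀ v, 0 ≤ Φ.slope v α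
  antitone : ∀ i, Antitone (NX i)
  J : ℕ → Type
  [finJ : ∀ i, Fintype (J i)]
  deg : ∀ {i}, J i → ℕ
  len : ∀ {i}, J i → ℕ
  points : ∀ {i}, J i → ℕ
  word : ∀ {i} (τ : J i), Fin (len τ) → Letter g
  t : ∀ {i} (τ : J i), HZ (deg τ) →ₗ[ℂ] HX i
  sum_t : ∀ {i} (x : HX i), ∃ z : ∀ τ : J i, HZ (deg τ), x = ∑ τ, t τ (z τ)
  independent : ∀ {i} (z : ∀ τ : J i, HZ (deg τ)), ∑ τ, t τ (z τ) = 0 → ∀ τ, z τ = 0
  frobenius : ∀ {i} (τ : J i) z,
    FX i (t τ z) = (Φ.q ^ points τ * ∏ k, Φ.π (word τ k)) • t τ (FZ _ z)
  coniveau : ∀ {i} (τ : J i) (μ : ℕ) (z), z ∈ NZ (deg τ) μ →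
    t τ z ∈ NX i (μ + pairs (word τ) + points τ)

attribute [instance] Cohomology.addZ Cohomology.modZ Cohomology.addX Cohomology.modX Cohomology.finJ

section

variable {I : Type} {g : I → ℕ} {Φ : Eigenvalues g}

lemma π_ne (Φ : Eigenvalues g) (x : Letter g) : Φ.π x ≠ 0 := by
  obtain ⟨a, b⟩ := x
  have h := Φ.π_mul a
  cases b
  · intro h0
    rw [h0, mul_zero] at h
    exact Φ.q_ne h.symm
  · intro h0
    rw [h0, zero_mul] at h
    exact Φ.q_ne h.symm

lemma slope_one (v : Φ.Place) : Φ.slope v 1 = 0 := by
  have h := Φ.slope_mul v 1 1 one_ne_zero one_ne_zero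
  rw [one_mul] at h
  linarith

lemma slope_prod (v : Φ.Place) {s : ℕ} (w : Fin s → Letter g) :
    Φ.slope v (∏ k, Φ.π (w k)) = ∑ k, Φ.slope v (Φ.π (w k)) := by
  have key : ∀ T : Finset (Fin s), Φ.slope v (∏ k ∈ T, Φ.π (w k)) = ∑ k ∈ T, Φ.slope v (Φ.π (w k)) := by
    intro T
    induction T using Finset.induction_on with
    | empty => rw [Finset.prod_empty, Finset.sum_empty, slope_one]
    | insert k T hk ih =>
      rw [Finset.prod_insert hk, Finset.sum_insert hk,
        Φ.slope_mul v _ _ (π_ne Φ _) (Finset.prod_ne_zero_iff.mpr fun k _ => π_ne Φ _), ih]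
  exact key Finset.univ

lemma slope_pow (v : Φ.Place) (n : ℕ) : Φ.slope v (Φ.q ^ n) = n := by
  induction n with
  | zero => rw [pow_zero, slope_one]; simp
  | succ n ih =>
    rw [pow_succ, Φ.slope_mul v _ _ (pow_ne_zero _ Φ.q_ne) Φ.q_ne, ih, Φ.slope_q]
    push_cast
    ring

/-- at a suitable place with the same slopes on the cohomology of `Z`, the slope of a word is the
number of its pairs -/
lemma exists_place [Fintype I] [DecidableEq I] (v : Φ.Place) {s : ℕ} (w : Fin s → Letter g) :
    ∃ v', (∀ α ∈ Φ.Λ, Φ.slope v' α = Φ.slope v α) ∧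
      Φ.slope v' (∏ k, Φ.π (w k)) = (pairs w : ℕ) := by
  classical
  let cnt : Letter g → ℕ := fun x => (Finset.univ.filter fun k => w k = x).card
  let ε : (Σ i : I, Fin (g i)) → Bool := fun a => decide (cnt (a, false) ≤ cnt (a, true))
  obtain ⟨v', h1, h2⟩ := Φ.types v ε
  refine ⟨v', h1, ?_⟩
  have hone : ∀ a, Φ.slope v' (Φ.π (a, !(ε a))) = 1 := by
    intro a
    have h3 := Φ.slope_mul v' _ _ (π_ne Φ (a, true)) (π_ne Φ (a, false))
    rw [Φ.π_mul, Φ.slope_q] at h3
    have h4 := h2 a
    cases hε : ε a
    · rw [hε] at h4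
      simp only [Bool.not_false]
      linarith
    · rw [hε] at h4
      simp only [Bool.not_true]
      linarith
  rw [slope_prod]
  have h5 : ∑ k, Φ.slope v' (Φ.π (w k)) =
      ∑ x : Letter g, (cnt x : ℚ) * Φ.slope v' (Φ.π x) := by
    rw [← Finset.sum_fiberwise_of_maps_to (s := Finset.univ) (t := Finset.univ) (g := w)
      (fun _ _ => Finset.mem_univ _)]
    refine Finset.sum_congr rfl fun x _ => ?_
    rw [Finset.sum_congr rfl (g := fun _ => Φ.slope v' (Φ.π x)) fun k hk => by
      rw [(Finset.mem_filter.mp hk).2], Finset.sum_const, nsmul_eq_mul]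
  rw [h5, Fintype.sum_prod_type]
  unfold pairs
  push_cast
  refine Finset.sum_congr rfl fun a _ => ?_
  rw [Fintype.sum_bool]
  have h6 := h2 a
  have h7 := hone a
  by_cases hle : cnt (a, false) ≤ cnt (a, true)
  · have hε : ε a = true := decide_eq_true hle
    rw [hε] at h6 h7
    simp only [Bool.not_true] at h7
    rw [h6, h7, mul_zero, mul_one, zero_add]
    exact (min_eq_right (Nat.cast_le.mpr hle)).symm
  · have hε : ε a = false := decide_eq_false hle
    rw [hε] at h6 h7
    simp only [Bool.not_false] at h7
    rw [h6, h7, mul_zero, mul_one, add_zero]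
    exact (min_eq_left (Nat.cast_le.mpr (not_le.mp hle).le)).symm

/-- the operator `F X - β` on the part of `τ` -/
lemma pow_part [Fintype I] [DecidableEq I] (T : Cohomology Φ) {i : ℕ} (τ : T.J i) (β : ℂ) (k : ℕ) (z : T.HZ (T.deg τ)) :
    ((T.FX i - β • (1 : Module.End ℂ (T.HX i))) ^ k) (T.t τ z) = T.t τ
      ((((Φ.q ^ T.points τ * ∏ k, Φ.π (T.word τ k)) • T.FZ (T.deg τ) -
        β • (1 : Module.End ℂ (T.HZ (T.deg τ)))) ^ k) z) := by
  induction k generalizing z with
  | zero => simp
  | succ k ih =>
    rw [pow_succ, pow_succ, Module.End.mul_apply]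
    have h1 : (T.FX i - β • (1 : Module.End ℂ (T.HX i))) (T.t τ z) = T.t τ
        (((Φ.q ^ T.points τ * ∏ k, Φ.π (T.word τ k)) • T.FZ (T.deg τ) -
          β • (1 : Module.End ℂ (T.HZ (T.deg τ)))) z) := by
      simp only [LinearMap.sub_apply, LinearMap.smul_apply, Module.End.one_apply, map_sub, map_smul]
      rw [T.frobenius]
    rw [h1, ih]
    rfl

end

/-- **The generalized Tate conjecture for the products of a given variety with random curves and
abelian varieties over finite fields.** -/
theorem result {I : Type} [Fintype I] [DecidableEq I] (g : I → ℕ) (Φ : Eigenvalues g)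
    (T : Cohomology Φ) : GTC Φ T.FZ T.NZ → GTC Φ T.FX T.NX := by
  intro hZ i ν β hβ x hx
  obtain ⟨z, rfl⟩ := T.sum_t x
  obtain ⟨k, hk⟩ := Module.End.mem_maxGenEigenspace (T.FX i) β _ |>.mp hx
  refine Submodule.sum_mem _ fun τ _ => ?_
  let c : ℂ := Φ.q ^ T.points τ * ∏ k, Φ.π (T.word τ k)
  have hc : c ≠ 0 := mul_ne_zero (pow_ne_zero _ Φ.q_ne) (Finset.prod_ne_zero_iff.mpr fun k _ => π_ne Φ _)
  -- the component is a generalized eigenvector
  have h1 : ∀ τ, (((Φ.q ^ T.points τ * ∏ k, Φ.π (T.word τ k)) • T.FZ (T.deg τ) -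
      β • (1 : Module.End ℂ (T.HZ (T.deg τ)))) ^ k) (z τ) = 0 := by
    refine T.independent (fun τ => (((Φ.q ^ T.points τ * ∏ k, Φ.π (T.word τ k)) • T.FZ (T.deg τ) -
      β • (1 : Module.End ℂ (T.HZ (T.deg τ)))) ^ k) (z τ)) ?_
    rw [← hk, map_sum]
    refine Finset.sum_congr rfl fun τ _ => ?_
    exact (pow_part T τ β k (z τ)).symm
  have h2 : z τ ∈ Module.End.maxGenEigenspace (T.FZ (T.deg τ)) (β / c) := by
    rw [Module.End.mem_maxGenEigenspace]
    refine ⟨k, ?_⟩
    have h3 : c • T.FZ (T.deg τ) - β • (1 : Module.End ℂ (T.HZ (T.deg τ))) =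
        c • (T.FZ (T.deg τ) - (β / c) • (1 : Module.End ℂ (T.HZ (T.deg τ)))) := by
      rw [smul_sub, smul_smul, mul_div_cancel₀ _ hc]
    have h4 := h1 τ
    change ((c • T.FZ (T.deg τ) - β • (1 : Module.End ℂ (T.HZ (T.deg τ)))) ^ k) (z τ) = 0 at h4
    rw [h3, smul_pow, LinearMap.smul_apply] at h4
    exact (smul_eq_zero.mp h4).resolve_left (pow_ne_zero _ hc)
  by_cases hΛ : β / c ∈ Φ.Λ
  · have hα : β / c ≠ 0 := T.eigenvalues_ne _ hΛ
    have hβc : β = (β / c) * c := (div_mul_cancel₀ β hc).symm
    have h5 : Φ.Divisible (β / c) (ν - (pairs (T.word τ) + T.points τ)) := by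
      intro v
      obtain ⟨v', hv1, hv2⟩ := exists_place v (T.word τ)
      have h6 := hβ v'
      rw [hβc, Φ.slope_mul v' _ _ hα hc, hv1 _ hΛ] at h6
      have h7 : Φ.slope v' c = T.points τ + pairs (T.word τ) := by
        change Φ.slope v' (Φ.q ^ T.points τ * ∏ k, Φ.π (T.word τ k)) = _
        rw [Φ.slope_mul v' _ _ (pow_ne_zero _ Φ.q_ne)
          (Finset.prod_ne_zero_iff.mpr fun k _ => π_ne Φ _), slope_pow, hv2]
      rw [h7] at h6
      by_cases hν : pairs (T.word τ) + T.points τ ≤ ν
      · rw [Nat.cast_sub hν]
        push_cast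
        linarith
      · rw [Nat.sub_eq_zero_of_le (not_le.mp hν).le]
        exact_mod_cast T.integral _ hΛ v
    have h8 := T.coniveau τ _ _ (hZ _ _ _ h5 h2)
    exact T.antitone i (by omega) h8
  · rw [T.eigenvalues _ _ hΛ, Submodule.mem_bot] at h2
    rw [h2, map_zero]
    exact Submodule.zero_mem _

end Pool.Agent.Results.MP_8abef2_ag.ProductsWithRandomCurves
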