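import Pool.Agent.Q56.MF.Main

open CategoryTheory AlgebraicGeometry

universe u v

open Pool.Agent.H914 Pool.Agent.H914.VarClass Pool.Agent.H914.VarClass.Obj Pool.Agent.W534
  Pool.Agent.Q56.MF

/-- **The Tate conjecture for the square of a variety with simple transcendental spectrum.** Let `X`
be a smooth proper variety of dimension `n` over an algebraic closure of a finite field, `W` a Weil
cohomology theory with a system `Φ` of Frobenius endomorphisms, and `D` a divisor satisfying hard
Lefschetz; the Kunneth projectors of `X` are algebraic (for `l`-adic cohomology this is the theorem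
of Deligne and Katz-Messing). Suppose that the strong Tate conjecture holds for `X` itself: the Tate
classes on `X` are algebraic, and homological and numerical equivalence agree on `X`. Suppose that
for every `s ≥ 1` and every `i` the characteristic polynomial of the Frobenius relative to the
extension of degree `s` on the transcendental part of `H^i(X)` (the classes orthogonal to all cycle
classes) has no multiple root. Then

(1) the Tate conjecture holds for `X × X` in all codimensions `c ≥ n`;

(2) the Tate conjecture holds for `X × X` in all codimensions if and only if the Lefschetz standard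
conjecture holds for `X` and `D`. -/
theorem Pool.Agent.Results.MP_8abef2_ag.SimpleSpectrumSquares.result {k : Type u} [Field k]
    [IsAlgClosed k] {𝒱 : VarClass k} {ops : CycleOps 𝒱} (W : WeilCohomology.{u, v} ops) {p : ℕ}
    (Φ : FrobSystem W p) (X : 𝒱.Obj) (D : X.Cycles) (hD : X.IsCyc 1 D)
    (hHL : HardLefschetz W X D) (hK : KunnethStd W X) (hDX : HomEqNum W X)
    (hTX : ∀ j, TateIn Φ X j) (hS : SimpleSpectrum Φ X) :
    (∀ c, X.dim ≤ c → TateIn Φ (X.prod X) c) ∧
      ((∀ c, TateIn Φ (X.prod X) c) ↔ LefschetzB W X D) :=
  main_square hD hHL hK hDX hTX hS
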